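import Mathlib
import Pool.Agent.D0H64.MX.Rat
import Pool.Agent.D0H64.MX.Conj
import Pool.Agent.D0H64.MX.Rat4

/-!
# Malle's conjecture for `C₂ ≀ ⋯ ≀ C₂ ≀_X H`, `H` acting on any large transitive set `X`

`H` is a finite group acting transitively and faithfully on a finite set `X`. If `H` has a subgroup
`U` of index `u` with trivial normal core and `8 log₂ |H| u (u + 1) ≤ 5 |X|`, or `u ≥ u₀` and
`log₂ |H| u (log u) ^ 2 ≤ 4 |X|`, then Malle's conjecture
holds for the permutation groups `C₂ ≀_X H`, `C₂ ≀ (C₂ ≀_X H)`, ... (of degree `2 ^ k |X|`, `k ≥ 1`)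
over every number field over which `H` is a Galois group. This applies over all number fields to
all the transitive faithful actions of `S_m` and of `A ≀ S_m` of large degree.
For `S_m`, `m ≥ u₀`, degree `≥ C m (log m) ^ 3` is enough, over every number field.
-/

set_option autoImplicit false

open Filter
open Pool.Agent.D0H64.MX (wr Pt Gp IsTower Good Large)
open Pool.Agent.H391R2 (Wr)

namespace Pool.Agent.Results.MP_af4c59_nt.IteratedWreathsAllActions

/-- `H` is the Galois group of a Galois extension of `K`. -/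
def IsGaloisGroupOver (K : Type) [Field K] (H : Type) [Group H] : Prop :=
  ∃ N : IntermediateField K (AlgebraicClosure K),
    FiniteDimensional K N ∧ IsGalois K N ∧ Nonempty ((N ≃ₐ[K] N) ≃* H)

/-- The index of a permutation: `n` minus the number of its cycles, fixed points included. -/
def ind {n : ℕ} (g : Equiv.Perm (Fin n)) : ℕ := g.cycleType.sum - Multiset.card g.cycleType

/-- `a(G) = 1 / min ind(g)`, the minimum over the `g ≠ 1` in `G`. -/
noncomputable def a {n : ℕ} (G : Subgroup (Equiv.Perm (Fin n))) : ℝ :=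
  1 / (sInf {j : ℕ | ∃ g ∈ G, g ≠ 1 ∧ j = ind g} : ℕ)

/-- `N_{n,K}(T; G)`: the number of fields `L` between `K` and its algebraic closure, of degree `n`
over `K`, whose Galois group, acting on the embeddings, is `G` (up to numbering), and whose relative
discriminant has norm at most `T` (that is, `|d_L| ≤ T |d_K| ^ n`). -/
noncomputable def N (K : Type) [Field K] [NumberField K] (n : ℕ)
    (G : Subgroup (Equiv.Perm (Fin n))) (T : ℝ) : ℕ :=
  Set.ncard {L : IntermediateField K (AlgebraicClosure K) |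
    Module.finrank K L = n ∧
    (∃ e : (L →ₐ[K] AlgebraicClosure K) ≃ Fin n, ∀ π : Equiv.Perm (Fin n),
      π ∈ G ↔ ∃ σ : AlgebraicClosure K ≃ₐ[K] AlgebraicClosure K,
        ∀ φ : L →ₐ[K] AlgebraicClosure K, e (σ.toAlgHom.comp φ) = π (e φ)) ∧
    ∃ h : NumberField L,
      ((|@NumberField.discr L _ h| : ℤ) : ℝ) ≤ T * ((|NumberField.discr K| : ℤ) : ℝ) ^ n}

/-- Malle's conjecture for `(K, G)`: the asymptotic formula `N_{n,K}(T; G) ~ c T ^ a(G)` with `c > 0`,
and the inequalities of the weak form. -/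
def Malle (K : Type) [Field K] [NumberField K] (n : ℕ) (G : Subgroup (Equiv.Perm (Fin n))) :
    Prop :=
  (∃ c : ℝ, 0 < c ∧ Tendsto (fun T : ℝ => (N K n G T : ℝ) / T ^ a G) atTop (nhds c)) ∧
  (∃ c₁ : ℝ, 0 < c₁ ∧ ∃ T₀ : ℝ, ∀ T : ℝ, T₀ ≤ T → c₁ * T ^ a G ≤ N K n G T) ∧
  (∀ ε : ℝ, 0 < ε → ∃ c₂ : ℝ, 0 < c₂ ∧ ∃ T₀ : ℝ, ∀ T : ℝ, T₀ ≤ T →
    (N K n G T : ℝ) < c₂ * T ^ (a G + ε))

theorem a_eq {H X : Type} [Group H] [MulAction H X] [Nonempty X] {k n : ℕ}
    {G : Subgroup (Equiv.Perm (Fin n))} (hk : 1 ≤ k) (hG : IsTower H X k G) : a G = 1 := by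
  obtain ⟨j, rfl⟩ : ∃ j, k = j + 1 := ⟨k - 1, by omega⟩
  have := Pool.Agent.D0H64.MX.pt_nonempty X j
  have h := Pool.Agent.D0H64.MX.least_ind (Pool.Agent.D0H64.MX.isC2 hG)
  have h2 : sInf {j : ℕ | ∃ g ∈ G, g ≠ 1 ∧ j = ind g} = 1 := h.csInf_eq
  unfold a
  rw [h2]
  simp

theorem of_good (K : Type) [Field K] [NumberField K] (H X : Type) [Group H] [MulAction H X]
    [Finite X] [Nonempty X] (hg : Good K (AlgebraicClosure K) H X) (k n : ℕ)
    (G : Subgroup (Equiv.Perm (Fin n))) (hk : 1 ≤ k) (hG : IsTower H X k G) : Malle K n G := by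
  have ha := a_eq hk hG
  obtain ⟨j, rfl⟩ : ∃ j, k = j + 1 := ⟨k - 1, by omega⟩
  obtain ⟨-, c, hc0, hlim⟩ := Pool.Agent.D0H64.MX.asymp_tower Pool.Agent.D0H64.MX.mg
    Pool.Agent.D0H52.MX.t_ITR K H X hg G hG
  unfold Malle
  rw [ha]
  have hlim' : Tendsto (fun T : ℝ => (N K n G T : ℝ) / T) atTop (nhds c) := hlim
  refine ⟨⟨c, hc0, by simpa using hlim'⟩, ⟨c / 2, by positivity, ?_⟩, ?_⟩
  · have h := (hlim'.eventually (lt_mem_nhds (by linarith : c / 2 < c))).and
      (eventually_gt_atTop (0 : ℝ))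
    obtain ⟨T₀, hT₀⟩ := eventually_atTop.1 h
    refine ⟨T₀, fun T hT => ?_⟩
    obtain ⟨h3, h4⟩ := hT₀ T hT
    rw [lt_div_iff₀ h4] at h3
    rw [Real.rpow_one]
    exact h3.le
  · intro ε hε
    refine ⟨2 * c, by positivity, ?_⟩
    have h := (hlim'.eventually (gt_mem_nhds (by linarith : c < 2 * c))).and
      (eventually_ge_atTop (1 : ℝ))
    obtain ⟨T₀, hT₀⟩ := eventually_atTop.1 h
    refine ⟨T₀, fun T hT => ?_⟩
    obtain ⟨h3, h4⟩ := hT₀ T hT
    have h5 : (0 : ℝ) < T := by linarith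
    rw [div_lt_iff₀ h5] at h3
    refine h3.trans_le ?_
    apply mul_le_mul_of_nonneg_left _ (by positivity)
    calc T = T ^ (1 : ℝ) := (Real.rpow_one T).symm
      _ ≤ T ^ (1 + ε) := Real.rpow_le_rpow_of_exponent_le h4 (by linarith)

/-- Malle's conjecture over `K` for `C₂ ≀ ⋯ ≀ C₂ ≀_X H`, for all numbers `k ≥ 1` of factors `C₂`. -/
def Towers (K : Type) [Field K] [NumberField K] (H X : Type) [Group H] [MulAction H X] : Prop :=
  ∀ (k n : ℕ) (G : Subgroup (Equiv.Perm (Fin n))), 1 ≤ k → IsTower H X k G → Malle K n G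

theorem of_good' (K : Type) [Field K] [NumberField K] (H X : Type) [Group H] [MulAction H X]
    [Finite X] [Nonempty X] (hg : Good K (AlgebraicClosure K) H X) : Towers K H X :=
  fun k n G hk hG => of_good K H X hg k n G hk hG

/-- a set with a good pair is not empty -/
theorem nonempty_of {K : Type} [Field K] [NumberField K] {H X : Type} [Group H] [MulAction H X]
    (hg : Good K (AlgebraicClosure K) H X) : Nonempty X := by
  obtain ⟨M, -, e, -⟩ := hg.1
  exact ⟨e M.val⟩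

theorem of_good2 (K : Type) [Field K] [NumberField K] (H X : Type) [Group H] [MulAction H X]
    [Finite X] (hg : Good K (AlgebraicClosure K) H X) : Towers K H X := by
  have := nonempty_of hg
  exact of_good' K H X hg

end Pool.Agent.Results.MP_af4c59_nt.IteratedWreathsAllActions

open Pool.Agent.Results.MP_af4c59_nt.IteratedWreathsAllActions in
/-- Malle's conjecture for the iterated wreath products `C₂ ≀ ⋯ ≀ C₂ ≀_X H`. (1) general
`H`, `X`; (2) `H = S_m`; (3) `H = A ≀ S_m`; (4) `a(G) = 1`, and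
the elements of index `1` of `G` form one conjugacy class (so `b(K, G) = 1`). -/
theorem Pool.Agent.Results.MP_af4c59_nt.IteratedWreathsAllActions.result :
    ∃ (u₀ : ℕ) (C : ℝ), 0 < C ∧
    (∀ (K : Type) [Field K] [NumberField K] (H X : Type) [Group H] [Finite H] [Finite X]
      [MulAction H X] [FaithfulSMul H X] [MulAction.IsPretransitive H X],
      IsGaloisGroupOver K H → ∀ U : Subgroup H, U.normalCore = ⊥ →
      (Large H X (8 / 5 * U.index * (U.index + 1)) ∨
        (u₀ ≤ U.index ∧ Large H X (1 / 4 * U.index * (Real.log U.index) ^ 2))) →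
      Towers K H X) ∧
    (∀ (K : Type) [Field K] [NumberField K] (m : ℕ), 2 ≤ m → ∀ (X : Type) [Finite X]
      [MulAction (Equiv.Perm (Fin m)) X] [FaithfulSMul (Equiv.Perm (Fin m)) X]
      [MulAction.IsPretransitive (Equiv.Perm (Fin m)) X],
      (8 / 5 * Nat.log 2 m.factorial * m * (m + 1) ≤ (Nat.card X : ℝ) ∨
        (u₀ ≤ m ∧ C * m * (Real.log m) ^ 3 ≤ (Nat.card X : ℝ))) →
      Towers K (Equiv.Perm (Fin m)) X) ∧
    (∀ (K : Type) [Field K] [NumberField K] (A : Type) [Group A] [Finite A] (m : ℕ),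
      ((3 * Nat.card A + 2).factorial) ^ 3 ≤ m → u₀ ≤ m → ∀ (X : Type) [Finite X]
      [MulAction (Wr A m) X] [FaithfulSMul (Wr A m) X] [MulAction.IsPretransitive (Wr A m) X],
      1 / 4 * Nat.log 2 (Nat.card A ^ m * m.factorial) * (Nat.card A * m) *
        (Real.log (Nat.card A * m)) ^ 2 ≤ (Nat.card X : ℝ) →
      Towers K (Wr A m) X) ∧
    (∀ (H X : Type) [Group H] [MulAction H X] [Nonempty X] [MulAction.IsPretransitive H X]
      (k n : ℕ) (G : Subgroup (Equiv.Perm (Fin n))), 1 ≤ k → IsTower H X k G →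
      a G = 1 ∧ ∀ g g' : G, ind g.1 = 1 → ind g'.1 = 1 → IsConj g g') := by
  obtain ⟨u₁, h1⟩ := Pool.Agent.D0H64.MX.good_large2
  obtain ⟨u₂, h2⟩ := Pool.Agent.D0H64.MX.good_sym
  obtain ⟨u₃, h3⟩ := Pool.Agent.D0H64.MX.good_wreath
  obtain ⟨C, u₄, hC, h4⟩ := Pool.Agent.D0H64.MX.good_symK Pool.Agent.D0H64.MX.kfld
  refine ⟨max (max u₁ u₂) (max u₃ u₄), C, hC, ?_, ?_, ?_, ?_⟩
  · intro K _ _ H X _ _ _ _ _ _ hgal U hU hc
    have hne : (Pool.Agent.TH444.ML.Gal K (AlgebraicClosure K) H).Nonempty := hgal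
    rcases hc with hc | ⟨hu, hc⟩
    · exact of_good2 K H X (Pool.Agent.D0H64.MX.good_large1 K H X hne U hU hc)
    · exact of_good2 K H X (h1 K H X hne U hU (by omega) hc)
  · intro K _ _ m hm X _ _ _ _ hc
    rcases hc with hc | ⟨hu, hc⟩
    · exact of_good2 K _ X (h2 K m hm X (Or.inl hc))
    · exact of_good2 K _ X (h4 m (by omega) K X hc)
  · intro K _ _ A _ _ m hm hm0 X _ _ _ _ hc
    exact of_good2 K _ X (h3 K A m hm (by omega) X hc)
  · intro H X _ _ _ _ k n G hk hG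
    refine ⟨a_eq hk hG, fun g g' hg hg' => ?_⟩
    obtain ⟨j, rfl⟩ : ∃ j, k = j + 1 := ⟨k - 1, by omega⟩
    exact Pool.Agent.D0H64.MX.conj_tower hG g g' hg hg'
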