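import Pool.Agent.D0H15.TI.Main2

/-!
# Malle's lower bound for the symmetric group in all its transitive permutation representations

Notation of the problem: `N_{m,K}(X; G)` is the number of the extensions `F` of degree `m` of the number field `K`, inside an
algebraic closure, with `|Δ_F| ≤ X` (absolute norm of the relative discriminant) and Galois group permutation isomorphic to `G`.

There is `n₀` such that for every `n ≥ n₀`, EVERY subgroup `H` of `S_n` with trivial core and every number field `K`

  `N_{m,K}(X; G) ≥ c X ^ ((1 / 2 + 4 / (3 n) - 16 (log n)^2 / n^2) / t)`   for all `X ≥ X₀`,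

where `G ≅ S_n` is the group of permutations of the `m = [S_n : H]` cosets of `H` given by `S_n`, and `t` is the index of a transposition
in this representation (the number of its 2-cycles on `S_n / H`; the theorem is stated for every `t` such that a transposition moves
at most `2 t` cosets). Every transitive permutation representation of a group isomorphic to `S_n` is of this form. If no element
has a smaller index than the transpositions, `1 / t` is Malle's exponent `a(G)`, and the theorem gives more than one half of it;
for instance for `S_n` on the `k`-subsets of `{1, .., n}` (`t = C(n-2, k-1)`), and for Galois extensions with group `S_n` (`H = 1`, `t = n! / 2`).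

Known before: for `t = 1` (the natural action) the exponents `1 / 2 + 1 / n`, `1 / 2 + 1 / (n - 1)` (`K = ℚ`, Bhargava, Shankar, Wang), `1 / 2 + 1 / n` for odd `n` and every `K`
(starting result `SymmetricGroupOddDegree`), and in this project `SymmetricGroupLowerBound` (`K = ℚ`), whose method, in the form
it has over `K` (`MP_bf81c2_nt.SymmetricExtensions`), is used here. These give a bound for the other representations only if one compares the
discriminants:

1. If `M / K` is a Galois extension with group `Γ` and `p` is a prime number which does not divide `|Γ|`, then for all fields `E` between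
   `K` and `M` the exponent of `p` in `|Δ_E|` is the sum over the primes `𝔭` of `K` above `p` of
   `f(𝔭) ([E : K] - number of orbits of the inertia group of 𝔭 on the embeddings of E)` (`S_IND2`; tame different, Burnside's lemma).
2. For every subgroup `I` of `S_n` the index of `I` on `S_n / H` is at most `t` times its index on `{1, .., n}` (`S_COMB`).
3. A congruence condition on the polynomials forces the `S_n`-fields `L` of degree `n` to be unramified over `K` at all primes
   `p ≤ n`. So `|Δ_F| ≤ |Δ_L| ^ t` if `F` belongs to `H` in the Galois closure of `L`.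
4. `F` determines the Galois closure, so `L ↦ F` is finite-to-one.

Modules: `D0H6` (COMB), `D0H10` (TAME, NRM2), `D0H21` (BURN, IND2, UNR2, DISC2), `D0H28` (FLD), `D0H53` (SUB, NRM over `ℚ`), `D0H15/TI` (the relative forms FLD2, SUB2, and the assembly).
The number of the fields `L` is `Pool.Agent.D0H64.WS.expo'` (projects SF of helper41, SFK of helper15, WS of helper64).
-/

set_option autoImplicit false

open NumberField

namespace Pool.Agent.Results.MP_af4c59_nt.SymmetricGroupAllActions

/-- `|Δ_F|`: the absolute norm of the relative discriminant (or different) of `F / K`. -/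
noncomputable def relDisc (K F : Type) [Field K] [NumberField K] [Field F] [NumberField F] [Algebra K F] : ℕ :=
  Ideal.absNorm (differentIdeal (𝓞 K) (𝓞 F))

/-- The Galois group of the normal closure of `F / K` is `S_n` acting on the embeddings of `F` as on the cosets of `H`: there are
a homomorphism `ρ` of the Galois group of `K` onto `S_n` and a bijection `e` of the set of the `K`-embeddings of `F` with
`S_n / H` such that `e (σ φ) = ρ(σ) e(φ)`. (If the core of `H` is trivial, the kernel of `ρ` is the subgroup which belongs to the
normal closure of `F`.) -/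
def HasType {K : Type} [Field K] {n : ℕ} (H : Subgroup (Equiv.Perm (Fin n)))
    (F : IntermediateField K (AlgebraicClosure K)) : Prop :=
  ∃ (e : (F →ₐ[K] AlgebraicClosure K) ≃ (Equiv.Perm (Fin n) ⧸ H))
    (ρ : (AlgebraicClosure K ≃ₐ[K] AlgebraicClosure K) →* Equiv.Perm (Fin n)),
    Function.Surjective ρ ∧ ∀ (σ : AlgebraicClosure K ≃ₐ[K] AlgebraicClosure K)
      (φ : F →ₐ[K] AlgebraicClosure K), e (σ.toAlgHom.comp φ) = ρ σ • e φ

/-- The extensions `F` of `K` inside the algebraic closure of the type of `H` with `|Δ_F| ≤ X`. -/
def Fields (K : Type) [Field K] [NumberField K] {n : ℕ} (H : Subgroup (Equiv.Perm (Fin n))) (X : ℝ) :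
    Set (IntermediateField K (AlgebraicClosure K)) :=
  {F | HasType H F ∧ ∃ _ : NumberField F, (relDisc K F : ℝ) ≤ X}

theorem result : ∃ n₀ : ℕ, ∀ n : ℕ, n₀ ≤ n →
    ∀ H : Subgroup (Equiv.Perm (Fin n)), H.normalCore = ⊥ →
    ∀ t : ℕ, (∀ s : Equiv.Perm (Fin n), s.IsSwap →
      Nat.card {z : Equiv.Perm (Fin n) ⧸ H // s • z ≠ z} ≤ 2 * t) →
    ∀ (K : Type) [Field K] [NumberField K], ∃ c : ℝ, 0 < c ∧ ∃ X₀ : ℝ, ∀ X : ℝ, X₀ ≤ X →
      (Fields K H X).Finite ∧
      c * X ^ (((1 : ℝ) / 2 + 4 / (3 * n) - 16 * (Real.log n) ^ 2 / (n : ℝ) ^ 2) / t) ≤
        ((Fields K H X).ncard : ℝ) :=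
  Pool.Agent.D0H15.TI.main2

end Pool.Agent.Results.MP_af4c59_nt.SymmetricGroupAllActions
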