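import Pool.Agent.D0H64.WS.Main
import Pool.Agent.Results.MP_bf81c2_nt.LinnikExponent

/-!
# Lower bounds in Malle's conjecture for the wreath products `S_n ≀ H`, `n` large

Let `K` be any number field and `H` any permutation group of degree `m` which is the Galois group of an extension `M`
of degree `m` of `K`. For all `n ≥ n₀` (an absolute constant), even or odd, the number of the extensions `L ⊇ M` of
degree `m n` of `K` inside an algebraic closure with absolute discriminant at most `X` and with the full wreath product
`S_n ≀ H` (of degree `m n`) as Galois group is at least `X ^ (1 / 2 + 4 / (3 n) - 16 (log n) ^ 2 / n ^ 2)` for large `X`.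
The conjectured order of magnitude is `X`, up to `X ^ ε`: the transpositions have index one, so `a(G) = 1`.

(The absolute value of the discriminant of `L` is `|disc K| ^ (m n)` times the norm of the relative discriminant, so the
same lower bound holds for the number `N(X; G)` of the problem, which counts by the norm of the relative discriminant.)

The iterated wreath products `S_{n_1} ≀ (S_{n_2} ≀ ( ... ≀ S_{n_r}))` with all `n_i ≥ n₀` are special cases, over every
number field.

Known before: the starting result `MP_a3214d_nt.WreathSymmetricLowerBound` has the exponent `1 / 2 + 1 / n` for odd `n`.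
For even `n` I know only of the exponent `1 / 2 + 1 / n ^ 2` for all the extensions of degree `n` of a fixed field `M`
(Ellenberg-Venkatesh). For `m = 1` and `K = ℚ` this is `MP_af4c59_nt.SymmetricGroupLowerBound` (project SF of helper41);
the count over a fixed field `M` uses the modules of project SFK (helper15, with helpers 25, 42, 65).

The proof. The fields `L = M(θ)` are generated by the roots of polynomials `f` over `𝓞 M` with a double zero modulo the
square of a large prime ideal. We add a congruence condition to the family: `q` is a prime number which splits completely in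
`M`, and modulo one prime `𝔮` of `M` over `q` the polynomial `f` is the product of an irreducible quadratic polynomial and
different linear factors, modulo the other primes over `q` it is a product of different linear factors. Then a Frobenius
element over `q` fixes all the embeddings of `M` and all but two of the `m n` embeddings of `L`, and it interchanges these
two (`WS.core`, `WS.Fib`; the method of project WR with another local condition). The Galois group acts transitively on
the embeddings of `M`, and the stabilizer of an embedding `φ` acts doubly transitively on the extensions of `φ` to `L`.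
So the Galois group contains all the transpositions inside the fibres and hence the base group of the wreath product.
-/

set_option autoImplicit false
set_option linter.all false

namespace Pool.Agent.Results.MP_af4c59_nt.SymmetricWreathLowerBound

/-- The Galois group of `K` acts on the set of embeddings of `L`, numbered by `ι` in a suitable way, as
the permutation group `G` of `ι`. -/
def HasGroup {K : Type} [Field K] (L : IntermediateField K (AlgebraicClosure K)) {ι : Type}
    (G : Subgroup (Equiv.Perm ι)) : Prop :=
  ∃ e : (L →ₐ[K] AlgebraicClosure K) ≃ ι, ∀ τ : Equiv.Perm ι, τ ∈ G ↔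
    ∃ σ : AlgebraicClosure K ≃ₐ[K] AlgebraicClosure K, ∀ φ : L →ₐ[K] AlgebraicClosure K,
      e (σ.toAlgHom.comp φ) = τ (e φ)

/-- The extensions of degree `N` of `K` inside the algebraic closure of `K` with Galois group `G` whose
absolute discriminant has absolute value at most `X`. -/
def FieldsWithGroup (K : Type) [Field K] [NumberField K] (N : ℕ) {ι : Type}
    (G : Subgroup (Equiv.Perm ι)) (X : ℝ) : Set (IntermediateField K (AlgebraicClosure K)) :=
  {L | Module.finrank K L = N ∧
    (∃ h : NumberField L, ((|@NumberField.discr L _ h| : ℤ) : ℝ) ≤ X) ∧ HasGroup L G}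

/-- The wreath product of the symmetric group of degree `n` with the permutation group `H` of degree `m`:
all permutations of `m` blocks of length `n` which permute the blocks by an element of `H`. -/
def Wreath {m : ℕ} (n : ℕ) (H : Subgroup (Equiv.Perm (Fin m))) :
    Subgroup (Equiv.Perm (Fin m × Fin n)) where
  carrier := {τ | ∃ h ∈ H, ∀ x, (τ x).1 = h x.1}
  mul_mem' := by
    rintro a b ⟨h, hh, h1⟩ ⟨k, hk, h2⟩
    exact ⟨h * k, H.mul_mem hh hk, fun x => by
      rw [Equiv.Perm.mul_apply, Equiv.Perm.mul_apply, h1, h2]⟩
  one_mem' := ⟨1, H.one_mem, fun x => rfl⟩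
  inv_mem' := by
    rintro a ⟨h, hh, h1⟩
    refine ⟨h⁻¹, H.inv_mem hh, fun x => ?_⟩
    have e1 : a (a⁻¹ x) = x := Equiv.apply_symm_apply a x
    have e2 : h⁻¹ (h (a⁻¹ x).1) = (a⁻¹ x).1 := Equiv.symm_apply_apply h _
    have e3 := h1 (a⁻¹ x)
    rw [e1] at e3
    rw [e3, e2]

/-- There is `n₀` such that for all `n ≥ n₀`, all number fields `K`, all finite extensions `M` of `K` and all
permutation groups `H` of degree `m` which are the Galois group of `M` over `K` in its action on the embeddings: the
number of the extensions `L` of degree `m n` of `K` with Galois group `S_n ≀ H` and absolute discriminant at most `X` is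
finite, and the number of those which contain `M` is at least
`X ^ (1 / 2 + 4 / (3 n) - 16 (log n) ^ 2 / n ^ 2)`, for all large `X`. -/
theorem result : ∃ n₀ : ℕ, ∀ n : ℕ, n₀ ≤ n → ∀ (K : Type) [Field K] [NumberField K] (m : ℕ)
    (H : Subgroup (Equiv.Perm (Fin m))) (M : IntermediateField K (AlgebraicClosure K)),
    FiniteDimensional K M → HasGroup M H → ∃ X₀ : ℝ, ∀ X : ℝ, X₀ ≤ X →
      (FieldsWithGroup K (m * n) (Wreath n H) X).Finite ∧
      X ^ ((1 : ℝ) / 2 + 4 / (3 * n) - 16 * (Real.log n) ^ 2 / (n : ℝ) ^ 2) ≤
        (({L ∈ FieldsWithGroup K (m * n) (Wreath n H) X | M ≤ L}).ncard : ℝ) := by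
  obtain ⟨n₀, h⟩ := Pool.Agent.D0H64.WS.main
  obtain ⟨e, -, he2⟩ := Pool.Agent.Results.MP_bf81c2_nt.LinnikExponent.result
  refine ⟨max n₀ 2, fun n hn K _ _ m H M hMf hMH => ?_⟩
  have hn2 : 2 ≤ n := le_trans (le_max_right _ _) hn
  have hMN : NumberField M := NumberField.of_module_finite K M
  have hm : Module.finrank K M = m := by
    obtain ⟨e, -⟩ := hMH
    have h1 : Fintype.card (M →ₐ[K] AlgebraicClosure K) = Module.finrank K M := AlgHom.card K M _
    have h2 := Fintype.card_congr e
    rw [Fintype.card_fin] at h2
    exact h1.symm.trans h2
  have hmpos : 0 < m := by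
    rw [← hm]
    exact Module.finrank_pos
  obtain ⟨X₀, h1⟩ := h n (le_trans (le_max_left _ _) hn) K M
  obtain ⟨C, hC⟩ := he2 (m * n) (by nlinarith) (Module.finrank ℚ K)
  refine ⟨max X₀ 1, fun X hX => ?_⟩
  obtain ⟨T, hT, hle⟩ := h1 X (le_trans (le_max_left _ _) hX)
  have hfin' : (FieldsWithGroup K (m * n) (Wreath n H) X).Finite :=
    (hC K rfl X (le_trans (le_max_right _ _) hX)).1.subset fun L hL => ⟨hL.1, hL.2.1⟩
  refine ⟨hfin', hle.trans ?_⟩
  have hsub : T ⊆ {L ∈ FieldsWithGroup K (m * n) (Wreath n H) X | M ≤ L} := by
    intro L hL
    obtain ⟨e1, ⟨e2, e3⟩, e4⟩ := hT L hL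
    refine ⟨⟨by rw [e1, hm], ⟨e2, e3⟩, ?_⟩, e4.1⟩
    exact Pool.Agent.N783.CF.hasGroup_wreath M L H hMH e1 e4
  exact_mod_cast Set.ncard_le_ncard hsub (hfin'.subset fun L hL => hL.1)

end Pool.Agent.Results.MP_af4c59_nt.SymmetricWreathLowerBound
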